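import Pool.Agent.N483.KM.StmS
import Pool.Agent.R751.MB.Wht

/-!
# Project KM, pieces CPS and CAP (helper273): standard and isotropic position
-/

set_option autoImplicit false

namespace Pool.Agent.N273.KM

open MeasureTheory Set Filter Topology
open scoped ENNReal InnerProductSpace
open Pool.Agent.R751.MB (Eu EW VW Adm LCn AP Frame)
open Pool.Agent.N483.KM

namespace CPAx

variable {κ : Type} [Fintype κ]

/-- integrability of bounded functions -/
lemma int_bdd {w u : Eu κ → ℝ} (hw : Adm w) (hu : Continuous u) {B : ℝ} (hB : ∀ x, |u x| ≤ B) :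
    Integrable fun x => u x * w x := by
  refine Integrable.mono' (hw.int.const_mul B) (hu.measurable.mul hw.meas).aestronglyMeasurable
    (Eventually.of_forall fun x => ?_)
  have hw0 := hw.nonneg x
  have hB0 : 0 ≤ B := (abs_nonneg _).trans (hB x)
  rw [norm_mul, Real.norm_eq_abs, Real.norm_of_nonneg hw0]
  calc |u x| * w x ≤ B * w x := mul_le_mul_of_nonneg_right (hB x) hw0
    _ ≤ B * ((1 + ‖x‖ ^ 2) * w x) := by
        refine mul_le_mul_of_nonneg_left ?_ hB0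
        nlinarith [mul_nonneg (sq_nonneg ‖x‖) hw0]

lemma EW_nonneg {w u : Eu κ → ℝ} (hw : Adm w) (hu : ∀ x, 0 ≤ u x) : 0 ≤ EW w u :=
  div_nonneg (integral_nonneg fun x => mul_nonneg (hu x) (hw.nonneg x))
    (integral_nonneg fun x => hw.nonneg x)

lemma EW_mono {w u v : Eu κ → ℝ} (hw : Adm w) (hu : ∀ x, 0 ≤ u x) (huv : ∀ x, u x ≤ v x)
    (hv : Continuous v) {B : ℝ} (hB : ∀ x, |v x| ≤ B) : EW w u ≤ EW w v := by
  refine div_le_div_of_nonneg_right ?_ hw.pos.le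
  refine integral_mono_of_nonneg (Eventually.of_forall fun x => mul_nonneg (hu x) (hw.nonneg x))
    (int_bdd hw hv hB) (Eventually.of_forall fun x => ?_)
  exact mul_le_mul_of_nonneg_right (huv x) (hw.nonneg x)

lemma EW_const_mul (w u : Eu κ → ℝ) (c : ℝ) : EW w (fun x => c * u x) = c * EW w u := by
  unfold EW
  rw [← mul_div_assoc, ← integral_const_mul]
  congr 1
  refine integral_congr_ae (Eventually.of_forall fun x => ?_)
  simp only
  ring

lemma norm_sq_le {T : Eu κ →L[ℝ] Eu κ} {s : ℝ} (hs : 0 ≤ s)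
    (h : ∀ u, ‖ContinuousLinearMap.adjoint T u‖ ^ 2 ≤ s * ‖u‖ ^ 2) : ‖T‖ ^ 2 ≤ s := by
  have h1 : ‖ContinuousLinearMap.adjoint T‖ ≤ √s := by
    refine ContinuousLinearMap.opNorm_le_bound _ (Real.sqrt_nonneg s) fun u => ?_
    refine abs_le_of_sq_le_sq' ?_ (by positivity) |>.2
    rw [mul_pow, Real.sq_sqrt hs]
    exact h u
  rw [LinearIsometryEquiv.norm_map] at h1
  calc ‖T‖ ^ 2 ≤ √s ^ 2 := pow_le_pow_left₀ (norm_nonneg _) h1 2
    _ = s := Real.sq_sqrt hs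

lemma fderiv_comp {f : Eu κ → ℝ} (hf : ContDiff ℝ 1 f) (T : Eu κ →L[ℝ] Eu κ) (x : Eu κ) :
    fderiv ℝ (fun x => f (T x)) x = (fderiv ℝ f (T x)).comp T := by
  have h3 := (hf.differentiable (by norm_num) (T x)).hasFDerivAt.comp x T.hasFDerivAt
  exact h3.fderiv

lemma cont_norm {f : Eu κ → ℝ} (hf : ContDiff ℝ 1 f) : Continuous fun x => ‖fderiv ℝ f x‖ ^ 2 :=
  ((hf.continuous_fderiv (by norm_num)).norm).pow 2

end CPAx

open CPAx in
theorem t_CPS : S_CPS := by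
  intro κ _ A σ w hA hσ h hv
  obtain ⟨S, hS1, hS2⟩ := h.poi
  refine ⟨h.adm, fun f hf hb hd => ?_⟩
  obtain ⟨L, hL⟩ := hd
  have hL0 : 0 ≤ L := (norm_nonneg _).trans (hL 0)
  set T : Eu κ →L[ℝ] Eu κ := (S.symm : Eu κ →L[ℝ] Eu κ) with hT
  have hTS : ∀ x, T (S x) = x := fun x => S.symm_apply_apply x
  have hTn : ‖T‖ ^ 2 ≤ σ := by
    refine norm_sq_le hσ.le fun u => ?_
    rw [← hS1 (ContinuousLinearMap.adjoint T u)]
    have e : (fun x => ⟪S x, ContinuousLinearMap.adjoint T u⟫_ℝ) = fun x => ⟪x, u⟫_ℝ := by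
      funext x
      rw [ContinuousLinearMap.adjoint_inner_right, hTS]
    rw [e]
    exact hv u
  have hd' : ∀ x, ‖fderiv ℝ (fun y => f (T y)) x‖ ≤ L * ‖T‖ := by
    intro x
    rw [fderiv_comp hf]
    exact (ContinuousLinearMap.opNorm_comp_le _ _).trans
      (mul_le_mul_of_nonneg_right (hL _) (norm_nonneg _))
  have h3 := hS2 (fun y => f (T y)) (hf.comp T.contDiff)
    (by obtain ⟨B, hB⟩ := hb; exact ⟨B, fun y => hB _⟩) ⟨_, hd'⟩
  have e : (fun x => f (T (S x))) = f := by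
    funext x
    rw [hTS]
  rw [e] at h3
  refine h3.trans ?_
  rw [mul_assoc, ← EW_const_mul w _ σ]
  refine mul_le_mul_of_nonneg_left ?_ hA
  refine EW_mono h.adm (fun x => by positivity) (fun x => ?_) (v := fun x => σ * ‖fderiv ℝ f x‖ ^ 2)
    ((cont_norm hf).const_smul σ) (B := σ * L ^ 2) (fun x => ?_)
  · rw [fderiv_comp hf, hTS]
    calc ‖(fderiv ℝ f x).comp T‖ ^ 2 ≤ (‖fderiv ℝ f x‖ * ‖T‖) ^ 2 :=
          pow_le_pow_left₀ (norm_nonneg _) (ContinuousLinearMap.opNorm_comp_le _ _) 2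
      _ = ‖T‖ ^ 2 * ‖fderiv ℝ f x‖ ^ 2 := by ring
      _ ≤ σ * ‖fderiv ℝ f x‖ ^ 2 := mul_le_mul_of_nonneg_right hTn (by positivity)
  · rw [abs_of_nonneg (by positivity)]
    exact mul_le_mul_of_nonneg_left (pow_le_pow_left₀ (norm_nonneg _) (hL x) 2) hσ.le

open CPAx in
theorem t_CAP : S_CAP := by
  intro κ _ P c A w hP hc hPA h hv
  obtain ⟨S, hS1, -⟩ := Pool.Agent.R751.MB.wht κ w h.adm
  refine ⟨h.adm, S, hS1, fun f hf hb hd => ?_⟩
  obtain ⟨L, hL⟩ := hd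
  have hL0 : 0 ≤ L := (norm_nonneg _).trans (hL 0)
  set T : Eu κ →L[ℝ] Eu κ := (S : Eu κ →L[ℝ] Eu κ) with hT
  have hTn : ‖T‖ ^ 2 ≤ 1 / c := by
    refine norm_sq_le (by positivity) fun u => ?_
    have h1 := hv (ContinuousLinearMap.adjoint T u)
    have e : (fun x => ⟪x, ContinuousLinearMap.adjoint T u⟫_ℝ) = fun x => ⟪S x, u⟫_ℝ := by
      funext x
      rw [ContinuousLinearMap.adjoint_inner_right]
      rfl
    rw [e, hS1] at h1
    rw [div_mul_eq_mul_div, one_mul, le_div_iff₀ hc]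
    linarith
  have hd' : ∀ x, ‖fderiv ℝ (fun y => f (T y)) x‖ ≤ L * ‖T‖ := by
    intro x
    rw [fderiv_comp hf]
    exact (ContinuousLinearMap.opNorm_comp_le _ _).trans
      (mul_le_mul_of_nonneg_right (hL _) (norm_nonneg _))
  have h3 := h.poi (fun y => f (T y)) (hf.comp T.contDiff)
    (by obtain ⟨B, hB⟩ := hb; exact ⟨B, fun y => hB _⟩) ⟨_, hd'⟩
  refine h3.trans ?_
  have h4 : EW w (fun x => ‖fderiv ℝ (fun y => f (T y)) x‖ ^ 2) ≤
      1 / c * EW w (fun x => ‖fderiv ℝ f (S x)‖ ^ 2) := by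
    rw [← EW_const_mul]
    refine EW_mono h.adm (fun x => by positivity) (fun x => ?_)
      (v := fun x => 1 / c * ‖fderiv ℝ f (S x)‖ ^ 2)
      (((cont_norm hf).comp S.continuous).const_smul (1 / c)) (B := 1 / c * L ^ 2) (fun x => ?_)
    · rw [fderiv_comp hf]
      calc ‖(fderiv ℝ f (T x)).comp T‖ ^ 2 ≤ (‖fderiv ℝ f (T x)‖ * ‖T‖) ^ 2 :=
            pow_le_pow_left₀ (norm_nonneg _) (ContinuousLinearMap.opNorm_comp_le _ _) 2
        _ = ‖T‖ ^ 2 * ‖fderiv ℝ f (T x)‖ ^ 2 := by ring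
        _ ≤ 1 / c * ‖fderiv ℝ f (T x)‖ ^ 2 := mul_le_mul_of_nonneg_right hTn (by positivity)
    · rw [abs_of_nonneg (by positivity)]
      exact mul_le_mul_of_nonneg_left (pow_le_pow_left₀ (norm_nonneg _) (hL _) 2) (by positivity)
  have h5 : 0 ≤ EW w (fun x => ‖fderiv ℝ f (S x)‖ ^ 2) := EW_nonneg h.adm fun x => by positivity
  calc P * EW w (fun x => ‖fderiv ℝ (fun y => f (T y)) x‖ ^ 2) ≤
        P * (1 / c * EW w (fun x => ‖fderiv ℝ f (S x)‖ ^ 2)) := mul_le_mul_of_nonneg_left h4 hP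
    _ = P / c * EW w (fun x => ‖fderiv ℝ f (S x)‖ ^ 2) := by ring
    _ ≤ A * EW w (fun x => ‖fderiv ℝ f (S x)‖ ^ 2) := by
        refine mul_le_mul_of_nonneg_right ?_ h5
        rw [div_le_iff₀ hc]
        exact hPA

end Pool.Agent.N273.KM
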