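import Pool.Agent.N483.KM.StmS2
import Pool.Agent.N273.KM.CPA

/-!
# Project KM, piece PSDA (helper273): the cones of positive semidefinite matrices of any order
-/

set_option autoImplicit false

namespace Pool.Agent.N273.KM

open MeasureTheory Set Filter Topology Matrix
open scoped ENNReal InnerProductSpace ComplexOrder
open Pool.Agent.R751.MB (Eu EW VW Adm LCn AP Frame)
open Pool.Agent.N483.KM

namespace PSDx

/-- monotonicity of the constant -/
theorem gc_mono {A A' : ℝ} (hA : A ≤ A') {κ : Type} [Fintype κ] {C : Set (Eu κ)} (h : GC A C) :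
    GC A' C := by
  refine ⟨h.pc, fun f hf => ?_⟩
  obtain ⟨S, hS1, hS2⟩ := (h.ap f hf).poi
  refine ⟨(h.ap f hf).adm, S, hS1, fun g hg hb hd => (hS2 g hg hb hd).trans ?_⟩
  exact mul_le_mul_of_nonneg_right hA (CPAx.EW_nonneg (h.ap f hf).adm fun x => by positivity)

/-- splitting off a unit vector -/
theorem exists_e {ι : Type} [Fintype ι] (u : Eu ι) (hu : ‖u‖ = 1) :
    ∃ (k : ℕ) (e : (Eu (Fin k) × Eu (Fin 1)) ≃ₗ[ℝ] Eu ι), ∀ z : Eu ι,
      ⟪u, z⟫_ℝ = (e.symm z).2 0 ∧ ‖z‖ ^ 2 = ‖(e.symm z).1‖ ^ 2 + (e.symm z).2 0 ^ 2 := by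
  let V : Submodule ℝ (Eu ι) := (ℝ ∙ u)ᗮ
  let r := (stdOrthonormalBasis ℝ V).repr
  have huu : ⟪u, u⟫_ℝ = 1 := by
    rw [real_inner_self_eq_norm_sq, hu, one_pow]
  have hV : ∀ y : V, ⟪u, (y : Eu ι)⟫_ℝ = 0 := fun y =>
    Submodule.mem_orthogonal_singleton_iff_inner_right.1 y.2
  let L : (Eu (Fin (Module.finrank ℝ V)) × Eu (Fin 1)) →ₗ[ℝ] Eu ι :=
    { toFun := fun p => ((r.symm p.1 : V) : Eu ι) + p.2 0 • u
      map_add' := by
        intro p q
        simp only [Prod.fst_add, Prod.snd_add, map_add, Submodule.coe_add, PiLp.add_apply, add_smul]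
        abel
      map_smul' := by
        intro c p
        simp only [Prod.smul_fst, Prod.smul_snd, map_smul, Submodule.coe_smul, PiLp.smul_apply,
          smul_eq_mul, mul_smul, RingHom.id_apply, smul_add] }
  have hL : ∀ p, L p = ((r.symm p.1 : V) : Eu ι) + p.2 0 • u := fun p => rfl
  have hin : ∀ p, ⟪u, L p⟫_ℝ = p.2 0 := by
    intro p
    rw [hL, inner_add_right, hV, inner_smul_right, huu, mul_one, zero_add]
  have hinj : Function.Injective L := by
    rw [← LinearMap.ker_eq_bot, LinearMap.ker_eq_bot']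
    intro p hp
    have h1 : p.2 0 = 0 := by
      rw [← hin p, hp, inner_zero_right]
    have h2 : ((r.symm p.1 : V) : Eu ι) = 0 := by
      rw [hL, h1, zero_smul, add_zero] at hp
      exact hp
    have h3 : r.symm p.1 = 0 := Subtype.ext h2
    have h4 : p.1 = 0 := by
      have := congrArg r h3
      simpa using this
    refine Prod.ext h4 ?_
    ext i
    have hi : i = 0 := Subsingleton.elim _ _
    rw [hi]
    exact h1
  have hsurj : Function.Surjective L := by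
    intro z
    have hz : z - ⟪u, z⟫_ℝ • u ∈ V := by
      rw [Submodule.mem_orthogonal_singleton_iff_inner_right, inner_sub_right, inner_smul_right,
        huu, mul_one, sub_self]
    refine ⟨(r ⟨_, hz⟩, WithLp.toLp 2 fun _ => ⟪u, z⟫_ℝ), ?_⟩
    rw [hL]
    simp
  refine ⟨Module.finrank ℝ V, LinearEquiv.ofBijective L ⟨hinj, hsurj⟩, fun z => ?_⟩
  obtain ⟨p, rfl⟩ := hsurj z
  have he : (LinearEquiv.ofBijective L ⟨hinj, hsurj⟩).symm (L p) = p :=
    (LinearEquiv.ofBijective L ⟨hinj, hsurj⟩).symm_apply_apply p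
  rw [he]
  refine ⟨hin p, ?_⟩
  have h5 : ⟪((r.symm p.1 : V) : Eu ι), p.2 0 • u⟫_ℝ = 0 := by
    rw [inner_smul_right, real_inner_comm, hV, mul_zero]
  have h6 := norm_add_sq_real ((r.symm p.1 : V) : Eu ι) (p.2 0 • u)
  rw [h5, mul_zero, add_zero] at h6
  rw [hL, h6, norm_smul, hu, mul_one, Real.norm_eq_abs, sq_abs]
  congr 2
  have h7 := r.symm.norm_map p.1
  exact h7

/-- the cone given by a quadratic inequality -/
theorem cone {ι : Type} [Fintype ι] (u : Eu ι) (hu : ‖u‖ = 1) {P : Eu ι → Prop}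
    (hP : ∀ x, P x ↔ 0 ≤ ⟪u, x⟫_ℝ ∧ ‖x‖ ^ 2 ≤ 2 * ⟪u, x⟫_ℝ ^ 2) :
    ∃ (k : ℕ) (e : (Eu (Fin k) × Eu (Fin 1)) ≃ₗ[ℝ] Eu ι),
      {x | P x} = {z : Eu ι | ‖(e.symm z).1‖ ≤ (e.symm z).2 0} := by
  obtain ⟨k, e, he⟩ := exists_e u hu
  refine ⟨k, e, ?_⟩
  ext z
  obtain ⟨h1, h2⟩ := he z
  simp only [Set.mem_ofPred_eq]
  rw [hP, h1, h2]
  constructor
  · rintro ⟨h3, h4⟩
    exact abs_le_of_sq_le_sq' (by linarith) h3 |>.2
  · intro h3
    have h4 : 0 ≤ (e.symm z).2 0 := (norm_nonneg _).trans h3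
    refine ⟨h4, ?_⟩
    have h5 := pow_le_pow_left₀ (norm_nonneg _) h3 2
    linarith

variable {𝕜 : Type} [RCLike 𝕜]

theorem psd1 {M : Matrix (Fin 1) (Fin 1) 𝕜} (hM : M.conjTranspose = M) :
    M.PosSemidef ↔ 0 ≤ RCLike.re (M 0 0) := by
  constructor
  · intro h
    exact (RCLike.nonneg_iff.1 (h.diag_nonneg (i := 0))).1
  · intro h
    refine PosSemidef.of_dotProduct_mulVec_nonneg hM fun x => ?_
    have h1 : M 0 0 = ((RCLike.re (M 0 0) : ℝ) : 𝕜) := by
      have := congrFun (congrFun hM 0) 0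
      rw [conjTranspose_apply] at this
      exact (RCLike.conj_eq_iff_re.1 this).symm
    have e : star x ⬝ᵥ (M *ᵥ x) = ((RCLike.re (M 0 0) * ‖x 0‖ ^ 2 : ℝ) : 𝕜) := by
      simp only [dotProduct, mulVec, Fin.sum_univ_one, Fin.isValue, Pi.star_apply, RCLike.star_def]
      rw [h1, RCLike.ofReal_re]
      have h2 := RCLike.conj_mul (x 0)
      push_cast
      linear_combination ((RCLike.re (M 0 0) : ℝ) : 𝕜) * h2
    rw [e, RCLike.ofReal_nonneg]
    positivity

theorem psd2 {M : Matrix (Fin 2) (Fin 2) 𝕜} (hM : M.conjTranspose = M) :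
    M.PosSemidef ↔ 0 ≤ RCLike.re (M 0 0) + RCLike.re (M 1 1) ∧
      ‖M 0 1‖ ^ 2 ≤ RCLike.re (M 0 0) * RCLike.re (M 1 1) := by
  have hd : ∀ i, M i i = ((RCLike.re (M i i) : ℝ) : 𝕜) := by
    intro i
    have := congrFun (congrFun hM i) i
    rw [conjTranspose_apply] at this
    exact (RCLike.conj_eq_iff_re.1 this).symm
  have h10 : M 1 0 = (starRingEnd 𝕜) (M 0 1) := by
    have := congrFun (congrFun hM 1) 0
    rw [conjTranspose_apply] at this
    exact this.symm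
  constructor
  · intro h
    have h0 := (RCLike.nonneg_iff.1 (h.diag_nonneg (i := 0))).1
    have h1 := (RCLike.nonneg_iff.1 (h.diag_nonneg (i := 1))).1
    refine ⟨by linarith, ?_⟩
    have h2 := (RCLike.nonneg_iff.1 h.det_nonneg).1
    have e : M.det = ((RCLike.re (M 0 0) * RCLike.re (M 1 1) - ‖M 0 1‖ ^ 2 : ℝ) : 𝕜) := by
      rw [det_fin_two, h10, RCLike.mul_conj, hd 0, hd 1]
      simp only [RCLike.ofReal_re]
      push_cast
      ring
    rw [e, RCLike.ofReal_re] at h2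
    linarith
  · rintro ⟨h0, h1⟩
    refine PosSemidef.of_dotProduct_mulVec_nonneg hM fun x => ?_
    obtain ⟨p, hp⟩ : ∃ p : ℝ, p = RCLike.re (M 0 0) := ⟨_, rfl⟩
    obtain ⟨q, hq⟩ : ∃ q : ℝ, q = RCLike.re (M 1 1) := ⟨_, rfl⟩
    have hp' := hd 0
    have hq' := hd 1
    rw [← hp] at h0 h1 hp'
    rw [← hq] at h0 h1 hq'
    have e : star x ⬝ᵥ (M *ᵥ x) = ((p * ‖x 0‖ ^ 2 + q * ‖x 1‖ ^ 2 +
        2 * RCLike.re ((starRingEnd 𝕜) (x 0) * M 0 1 * x 1) : ℝ) : 𝕜) := by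
      simp only [dotProduct, mulVec, Fin.sum_univ_two, Fin.isValue, Pi.star_apply,
        RCLike.star_def]
      rw [hp', hq', h10]
      have e0 := RCLike.conj_mul (x 0)
      have e1 := RCLike.conj_mul (x 1)
      have e2 : ((2 * RCLike.re ((starRingEnd 𝕜) (x 0) * M 0 1 * x 1) : ℝ) : 𝕜) =
          (starRingEnd 𝕜) (x 0) * M 0 1 * x 1 + (starRingEnd 𝕜) (x 1) * (starRingEnd 𝕜) (M 0 1) * x 0 := by
        have e3 := RCLike.add_conj ((starRingEnd 𝕜) (x 0) * M 0 1 * x 1)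
        rw [map_mul, map_mul, RCLike.conj_conj] at e3
        push_cast
        linear_combination -e3
      push_cast at e2 ⊢
      linear_combination (p : 𝕜) * e0 + (q : 𝕜) * e1 - e2
    rw [e, RCLike.ofReal_nonneg]
    have h3 : -(‖x 0‖ * ‖M 0 1‖ * ‖x 1‖) ≤ RCLike.re ((starRingEnd 𝕜) (x 0) * M 0 1 * x 1) := by
      have := RCLike.abs_re_le_norm ((starRingEnd 𝕜) (x 0) * M 0 1 * x 1)
      rw [norm_mul, norm_mul, RCLike.norm_conj] at this
      linarith [(abs_le.1 this).1]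
    have hpq : 0 ≤ p * q := (sq_nonneg _).trans h1
    have hp0 : 0 ≤ p := by
      by_contra hcon
      push Not at hcon
      nlinarith
    have hq0 : 0 ≤ q := by
      by_contra hcon
      push Not at hcon
      nlinarith
    have h4 : 2 * (‖x 0‖ * ‖M 0 1‖ * ‖x 1‖) ≤ p * ‖x 0‖ ^ 2 + q * ‖x 1‖ ^ 2 := by
      refine abs_le_of_sq_le_sq' ?_ (by positivity) |>.2
      have h5 : (2 * (‖x 0‖ * ‖M 0 1‖ * ‖x 1‖)) ^ 2 = 4 * ‖M 0 1‖ ^ 2 * (‖x 0‖ ^ 2 * ‖x 1‖ ^ 2) := by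
        ring
      have h6 : 4 * ‖M 0 1‖ ^ 2 * (‖x 0‖ ^ 2 * ‖x 1‖ ^ 2) ≤ 4 * (p * q) * (‖x 0‖ ^ 2 * ‖x 1‖ ^ 2) := by
        gcongr
      rw [h5]
      nlinarith [sq_nonneg (p * ‖x 0‖ ^ 2 - q * ‖x 1‖ ^ 2)]
    linarith

/-- the inner product with `u` -/
theorem inner_u {D : ℕ} {ι : Type} [Fintype ι] {Φ : Eu ι →ₗ[ℝ] Matrix (Fin D) (Fin D) 𝕜}
    (hΦ : Frame Φ) (x y : Eu ι) :
    ⟪x, y⟫_ℝ = ∑ i, ∑ j, RCLike.re (Φ x i j * (starRingEnd 𝕜) (Φ y i j)) := by
  have h1 := norm_add_sq_real x y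
  have h2 : ∀ i j, ‖Φ (x + y) i j‖ ^ 2 = ‖Φ x i j‖ ^ 2 +
      2 * RCLike.re (Φ x i j * (starRingEnd 𝕜) (Φ y i j)) + ‖Φ y i j‖ ^ 2 := by
    intro i j
    rw [map_add, Matrix.add_apply, ← RCLike.normSq_eq_def', RCLike.normSq_add,
      RCLike.normSq_eq_def', RCLike.normSq_eq_def']
    ring
  rw [← hΦ.iso (x + y), ← hΦ.iso x, ← hΦ.iso y] at h1
  simp only [h2, Finset.sum_add_distrib, ← Finset.mul_sum] at h1
  linarith

end PSDx

open PSDx in
theorem t_PSDA (h1 : S_PSDG) (h2 : S_LORG) : S_PSDA := by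
  obtain ⟨A1, hA1, H1⟩ := h1
  obtain ⟨A2, hA2, H2⟩ := h2
  refine ⟨max A1 A2, lt_max_of_lt_left hA1, fun 𝕜 _ D hD ι _ Φ hΦ => ?_⟩
  rcases Nat.lt_or_ge D 3 with hD3 | hD3
  · -- the unit vector
    obtain ⟨u, hu⟩ := hΦ.surj (((1 / √(D : ℝ) : ℝ) : 𝕜) • (1 : Matrix (Fin D) (Fin D) 𝕜)) (by
      rw [conjTranspose_smul, conjTranspose_one, RCLike.star_def, RCLike.conj_ofReal])
    have hiso := hΦ.iso
    have hinn := inner_u hΦ
    have hherm := hΦ.herm
    suffices hk : ∃ (k : ℕ) (e : (Eu (Fin k) × Eu (Fin 1)) ≃ₗ[ℝ] Eu ι),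
        {x : Eu ι | (Φ x).PosSemidef} = {z : Eu ι | ‖(e.symm z).1‖ ≤ (e.symm z).2 0} by
      obtain ⟨k, e, he⟩ := hk
      rw [he]
      exact gc_mono (le_max_right _ _) (H2 k ι e)
    interval_cases D
    · -- order one
      have hu00 : Φ u 0 0 = 1 := by
        rw [hu]
        simp
      have hun : ‖u‖ = 1 := by
        have := hiso u
        simp only [Fin.sum_univ_one, Fin.isValue] at this
        rw [hu00, norm_one, one_pow] at this
        nlinarith [norm_nonneg u]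
      refine cone u hun fun x => ?_
      have h3 : ⟪u, x⟫_ℝ = RCLike.re (Φ x 0 0) := by
        rw [hinn]
        simp only [Fin.sum_univ_one, Fin.isValue]
        rw [hu00, one_mul, RCLike.conj_re]
      have h4 : ‖x‖ ^ 2 = RCLike.re (Φ x 0 0) ^ 2 := by
        rw [← hiso x]
        simp only [Fin.sum_univ_one, Fin.isValue]
        have h5 := congrFun (congrFun (hherm x) 0) 0
        rw [conjTranspose_apply] at h5
        have h6 := RCLike.conj_eq_iff_re.1 h5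
        rw [← h6, RCLike.norm_ofReal, sq_abs, RCLike.ofReal_re]
      rw [psd1 (hherm x), h3, h4]
      constructor
      · intro h
        exact ⟨h, by nlinarith⟩
      · intro h
        exact h.1
    · -- order two
      have hs : √(2 : ℝ) ^ 2 = 2 := Real.sq_sqrt (by norm_num)
      have hs0 : 0 < √(2 : ℝ) := by positivity
      have hu00 : ∀ i, Φ u i i = ((1 / √(2 : ℝ) : ℝ) : 𝕜) := by
        intro i
        rw [hu]
        simp
      have hu01 : ∀ i j, i ≠ j → Φ u i j = 0 := by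
        intro i j hij
        rw [hu]
        simp [hij]
      have h01 : (0 : Fin 2) ≠ 1 := by decide
      have hun : ‖u‖ = 1 := by
        have := hiso u
        simp only [Fin.sum_univ_two, Fin.isValue] at this
        rw [hu00, hu00, hu01 0 1 h01, hu01 1 0 h01.symm, norm_zero, RCLike.norm_ofReal, sq_abs,
          div_pow, hs] at this
        nlinarith [norm_nonneg u]
      refine cone u hun fun x => ?_
      have h3 : ⟪u, x⟫_ℝ = 1 / √2 * (RCLike.re (Φ x 0 0) + RCLike.re (Φ x 1 1)) := by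
        rw [hinn]
        simp only [Fin.sum_univ_two, Fin.isValue]
        rw [hu00, hu00, hu01 0 1 h01, hu01 1 0 h01.symm, zero_mul, zero_mul, map_zero,
          RCLike.re_ofReal_mul, RCLike.re_ofReal_mul, RCLike.conj_re, RCLike.conj_re]
        ring
      have hd : ∀ i, ‖Φ x i i‖ ^ 2 = RCLike.re (Φ x i i) ^ 2 := by
        intro i
        have h5 := congrFun (congrFun (hherm x) i) i
        rw [conjTranspose_apply] at h5
        have h6 := RCLike.conj_eq_iff_re.1 h5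
        rw [← h6, RCLike.norm_ofReal, sq_abs, RCLike.ofReal_re]
      have h4 : ‖x‖ ^ 2 = RCLike.re (Φ x 0 0) ^ 2 + RCLike.re (Φ x 1 1) ^ 2 + 2 * ‖Φ x 0 1‖ ^ 2 := by
        rw [← hiso x]
        simp only [Fin.sum_univ_two, Fin.isValue]
        rw [hd, hd]
        have h5 := congrFun (congrFun (hherm x) 1) 0
        rw [conjTranspose_apply] at h5
        have h6 : ‖Φ x 1 0‖ = ‖Φ x 0 1‖ := by
          rw [← h5, norm_star]
        rw [h6]
        ring
      rw [psd2 (hherm x), h3, h4]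
      have h7 : (1 / √2 * (RCLike.re (Φ x 0 0) + RCLike.re (Φ x 1 1))) ^ 2 =
          (RCLike.re (Φ x 0 0) + RCLike.re (Φ x 1 1)) ^ 2 / 2 := by
        rw [mul_pow, div_pow, hs]
        ring
      rw [h7]
      constructor
      · rintro ⟨h8, h9⟩
        exact ⟨by positivity, by nlinarith⟩
      · rintro ⟨h8, h9⟩
        refine ⟨?_, by nlinarith⟩
        exact nonneg_of_mul_nonneg_right h8 (by positivity)
  · exact gc_mono (le_max_left _ _) (H1 𝕜 D hD3 ι Φ hΦ)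

end Pool.Agent.N273.KM
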